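import Pool.Agent.Q237.LR.Stm2

/-!
Project LR, job STA: stationarity.
-/

set_option autoImplicit false

namespace Pool.Agent.Q208.LR

open MeasureTheory ProbabilityTheory Set H10PL Pool.Agent.Q237.LR2

/-- a shift of an infinite product of copies of one measure, given by a permutation of the index set -/
theorem perm_mp {ι X : Type} [MeasurableSpace X] (μ : Measure X) [IsProbabilityMeasure μ] (e : ι ≃ ι) :
    MeasurePreserving (MeasurableEquiv.piCongrLeft (fun _ : ι => X) e)
      (Measure.infinitePi (fun _ : ι => μ)) (Measure.infinitePi (fun _ : ι => μ)) :=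
  ⟨(MeasurableEquiv.piCongrLeft (fun _ : ι => X) e).measurable,
    Measure.infinitePi_map_piCongrLeft (X := fun _ : ι => X) (μ := fun _ : ι => μ) e⟩

theorem perm_apply {ι X : Type} [MeasurableSpace X] (e : ι ≃ ι) (f : ι → X) (i : ι) :
    MeasurableEquiv.piCongrLeft (fun _ : ι => X) e f i = f (e.symm i) := by
  have h := Equiv.piCongrLeft_apply_apply (fun _ : ι => X) e f (e.symm i)
  rw [Equiv.apply_symm_apply] at h
  exact h

variable {d : ℕ}

theorem map_back (a b : Fin d → ℤ) (hab : a + b = 0) (e : Sym2 (Fin d → ℤ)) :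
    (e.map (fun y => y + a)).map (fun y => y + b) = e := by
  induction e using Sym2.ind with
  | _ y w =>
    rw [Sym2.map_mk, Sym2.map_mk]
    simp only [add_assoc, hab, add_zero]

/-- the shift of the edges -/
def edg (a : Fin d → ℤ) : Sym2 (Fin d → ℤ) ≃ Sym2 (Fin d → ℤ) where
  toFun e := e.map (fun y => y + a)
  invFun e := e.map (fun y => y + -a)
  left_inv e := map_back a (-a) (add_neg_cancel a) e
  right_inv e := map_back (-a) a (neg_add_cancel a) e

/-- the shift of an eigenvector -/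
theorem eig_shift {T0 : (Fin d → ℤ) → (Fin d → ℤ) → ℝ} {κ : (Fin d → ℤ) → ℝ}
    (hT : ∀ a y w, T0 (y + a) (w + a) = T0 y w) {s : Sym2 (Fin d → ℤ) → Bool}
    {V : (Fin d → ℤ) → ℝ} {E : ℝ} {ψ : (Fin d → ℤ) → ℝ} (a : Fin d → ℤ)
    (h : IsEig T0 κ s V E ψ) : IsEig T0 κ (shS a s) (shV a V) E (fun y => ψ (y + a)) := by
  refine ⟨(Equiv.addRight a).summable_iff.mpr h.1, fun y => ?_⟩
  have h2 := h.2 (y + a)
  rw [← h2, ← (Equiv.addRight a).tsum_eq (fun w => Kf T0 κ s (y + a) w * ψ w)]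
  have h3 : ∀ w, Kf T0 κ (shS a s) y w = Kf T0 κ s (y + a) (w + a) := fun w => by
    unfold Kf shS
    rw [hT, add_sub_add_right_eq_sub]
    rfl
  simp only [h3]
  rfl

theorem mem_shift {T0 : (Fin d → ℤ) → (Fin d → ℤ) → ℝ} {κ : (Fin d → ℤ) → ℝ}
    (hT : ∀ a y w, T0 (y + a) (w + a) = T0 y w) {K c : ℝ} {x : Fin d → ℤ}
    {q : ((Fin d → ℤ) → ℝ) × (Sym2 (Fin d → ℤ) → Bool)} (a : Fin d → ℤ)
    (h : q ∈ Zs T0 κ K c x) : (shV a q.1, shS a q.2) ∈ Zs T0 κ K c (x - a) := by
  obtain ⟨E, ψ, h1, h2, h3, h4⟩ := h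
  refine ⟨E, fun y => ψ (y + a), h1, eig_shift hT a h2, ?_, ?_⟩
  · exact ((Equiv.addRight a).tsum_eq (fun y => ψ y ^ 2)).le.trans h3
  · change c ≤ |ψ (x - a + a)|
    rwa [sub_add_cancel]

theorem sta : S_STA := by
  intro d T0 κ μ K c x hμ hT
  set e1 : (Fin d → ℤ) ≃ (Fin d → ℤ) := (Equiv.addRight x).symm with he1
  set e2 : Sym2 (Fin d → ℤ) ≃ Sym2 (Fin d → ℤ) := (edg x).symm with he2
  set Φ := MeasurableEquiv.prodCongr (MeasurableEquiv.piCongrLeft (fun _ : (Fin d → ℤ) => ℝ) e1)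
    (MeasurableEquiv.piCongrLeft (fun _ : Sym2 (Fin d → ℤ) => Bool) e2) with hΦ
  have hΦ1 : ∀ q, Φ q = (shV x q.1, shS x q.2) := fun q => by
    refine Prod.ext ?_ ?_
    · funext i
      exact perm_apply e1 q.1 i
    · funext i
      exact perm_apply e2 q.2 i
  have hmp : MeasurePreserving Φ ((PVg d μ).prod (Ps d)) ((PVg d μ).prod (Ps d)) :=
    (perm_mp μ e1).prod (perm_mp coin e2)
  have hset : Zs T0 κ K c x = Φ ⁻¹' (Zs T0 κ K c 0) := by
    ext q
    rw [mem_preimage, hΦ1]
    constructor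
    · intro h
      have h2 := mem_shift hT x h
      rwa [sub_self] at h2
    · intro h
      have h2 := mem_shift hT (-x) h
      rw [sub_neg_eq_add, zero_add] at h2
      have h3 : shV (-x) (shV x q.1) = q.1 := by
        funext y
        unfold shV
        rw [neg_add_cancel_right]
      have h4 : shS (-x) (shS x q.2) = q.2 := by
        funext e
        unfold shS
        rw [map_back (-x) x (neg_add_cancel x)]
      simp only [h3, h4] at h2
      exact h2
  rw [hset]
  exact hmp.measure_preimage_equiv _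

end Pool.Agent.Q208.LR
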